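import Mathlib

open MeasureTheory Set
open scoped ENNReal NNReal Topology

namespace Pool.Agent.Results.MP_a53ef7_an.GapScaling

/-- The truncated gap integral `G_p^t(f, Ω)` of a map `f` with values in a metric space `N`. -/
noncomputable def gapIntegral {N : Type*} [PseudoMetricSpace N] (m : ℕ) (p t : ℝ)
    (f : EuclideanSpace ℝ (Fin m) → N) (Ω : Set (EuclideanSpace ℝ (Fin m))) : ℝ≥0∞ :=
  ∫⁻ x in Ω, ∫⁻ y in Ω,
    if t ≤ dist (f y) (f x) then
      ENNReal.ofReal ((dist (f y) (f x) - t) ^ p / ‖y - x‖ ^ (2 * m)) else 0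

/-- The property asked for in Q1, for given `m`, `p` and target `N`. -/
def ScalingHolds (m : ℕ) (p : ℝ) (N : Type*) [MetricSpace N] [MeasurableSpace N] : Prop :=
  ∃ C : ℝ, ∀ (Ω : Set (EuclideanSpace ℝ (Fin m))) (f : EuclideanSpace ℝ (Fin m) → N) (δ ε : ℝ),
    Convex ℝ Ω → Measurable f → 0 < δ → δ < ε →
      gapIntegral m p ε f Ω ≤
        ENNReal.ofReal (C * (δ / ε) ^ ((m : ℝ) - p)) * gapIntegral m p δ f Ω

/-! ### Transfer to the real line -/

/-- The real line version. -/
noncomputable def gapR {N : Type*} [PseudoMetricSpace N] (p t : ℝ)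
    (g : ℝ → N) (S : Set ℝ) : ℝ≥0∞ :=
  ∫⁻ x in S, ∫⁻ y in S,
    if t ≤ dist (g y) (g x) then
      ENNReal.ofReal ((dist (g y) (g x) - t) ^ p / |y - x| ^ 2) else 0

/-- The coordinate as a measurable equivalence. -/
noncomputable def coordE : EuclideanSpace ℝ (Fin 1) ≃ᵐ ℝ :=
  (MeasurableEquiv.toLp 2 (Fin 1 → ℝ)).symm.trans (MeasurableEquiv.funUnique (Fin 1) ℝ)

lemma coordE_apply (x : EuclideanSpace ℝ (Fin 1)) : coordE x = x 0 := rfl

lemma coordE_mp : MeasurePreserving coordE volume volume :=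
  (EuclideanSpace.volume_preserving_symm_measurableEquiv_toLp (Fin 1)).trans
    (volume_preserving_funUnique (Fin 1) ℝ)

lemma norm_sub_eq (x y : EuclideanSpace ℝ (Fin 1)) : ‖y - x‖ = |coordE y - coordE x| := by
  rw [EuclideanSpace.norm_eq]
  simp [coordE_apply, Real.sqrt_sq_eq_abs]

lemma gap_eq {N : Type*} [PseudoMetricSpace N] (p t : ℝ) (g : ℝ → N) (S : Set ℝ) :
    gapIntegral 1 p t (fun x => g (coordE x)) (coordE ⁻¹' S) = gapR p t g S := by
  unfold gapIntegral gapR
  have h1 : ∀ x : EuclideanSpace ℝ (Fin 1), (∫⁻ y in coordE ⁻¹' S,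
      if t ≤ dist (g (coordE y)) (g (coordE x)) then
      ENNReal.ofReal ((dist (g (coordE y)) (g (coordE x)) - t) ^ p / ‖y - x‖ ^ (2 * 1)) else 0) =
      ∫⁻ y in S, if t ≤ dist (g y) (g (coordE x)) then
      ENNReal.ofReal ((dist (g y) (g (coordE x)) - t) ^ p / |y - coordE x| ^ 2) else 0 := by
    intro x
    rw [← coordE_mp.setLIntegral_comp_preimage_emb coordE.measurableEmbedding]
    simp only [norm_sub_eq, mul_one]
  simp only [h1]
  exact coordE_mp.setLIntegral_comp_preimage_emb coordE.measurableEmbedding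
    (fun x => ∫⁻ y in S, if t ≤ dist (g y) (g x) then
      ENNReal.ofReal ((dist (g y) (g x) - t) ^ p / |y - x| ^ 2) else 0) S

lemma convex_pre (R : ℝ) : Convex ℝ (coordE ⁻¹' (Icc (-R) R)) := by
  have : (coordE ⁻¹' (Icc (-R) R) : Set (EuclideanSpace ℝ (Fin 1))) =
      (EuclideanSpace.proj (0 : Fin 1) : EuclideanSpace ℝ (Fin 1) →L[ℝ] ℝ) ⁻¹' (Icc (-R) R) := by
    ext x; simp [coordE_apply]
  rw [this]
  exact (convex_Icc _ _).linear_preimage
    (EuclideanSpace.proj (0 : Fin 1) : EuclideanSpace ℝ (Fin 1) →L[ℝ] ℝ).toLinearMap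

lemma compact_pre (R : ℝ) : IsCompact (coordE ⁻¹' (Icc (-R) R)) := by
  apply Metric.isCompact_of_isClosed_isBounded
  · apply isClosed_Icc.preimage
    change Continuous (fun x : EuclideanSpace ℝ (Fin 1) => x 0)
    fun_prop
  · refine (Metric.isBounded_iff_subset_closedBall 0).2 ⟨R, ?_⟩
    intro x hx
    rw [mem_closedBall_zero_iff]
    have := norm_sub_eq 0 x
    rw [sub_zero] at this
    rw [this, coordE_apply, coordE_apply]
    simp only [PiLp.zero_apply, sub_zero]
    exact abs_le.2 hx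

/-! ### The kernel -/

/-- The kernel `|y - x|^{-2}`. -/
noncomputable def ker (x y : ℝ) : ℝ≥0∞ := ENNReal.ofReal (1 / |y - x| ^ 2)

lemma ker_symm (x y : ℝ) : ker x y = ker y x := by
  unfold ker; rw [abs_sub_comm]

lemma ker_meas : Measurable (fun z : ℝ × ℝ => ker z.1 z.2) := by
  unfold ker
  fun_prop

/-- The interaction of the two plateaus. -/
noncomputable def J (R : ℝ) : ℝ≥0∞ := ∫⁻ x in Icc (-R) 0, ∫⁻ y in Icc 1 R, ker x y

lemma J_lt_top (R : ℝ) : J R < ∞ := by
  unfold J
  calc (∫⁻ x in Icc (-R) 0, ∫⁻ y in Icc 1 R, ker x y)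
      ≤ ∫⁻ x in Icc (-R) 0, ∫⁻ y in Icc 1 R, 1 := by
        apply setLIntegral_mono' measurableSet_Icc
        intro x hx
        apply setLIntegral_mono' measurableSet_Icc
        intro y hy
        unfold ker
        rw [← ENNReal.ofReal_one]
        apply ENNReal.ofReal_le_ofReal
        have h1 : 1 ≤ |y - x| := by
          rw [abs_of_nonneg (by linarith [hx.2, hy.1])]; linarith [hx.2, hy.1]
        rw [div_le_one (by positivity)]
        exact one_le_pow₀ h1
    _ < ∞ := by
        simp only [lintegral_const, one_mul, Measure.restrict_apply MeasurableSet.univ,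
          univ_inter, Real.volume_Icc]
        exact ENNReal.mul_lt_top ENNReal.ofReal_lt_top ENNReal.ofReal_lt_top

lemma J_lower (R : ℝ) (hR : 2 ≤ R) : ENNReal.ofReal (Real.log (R / 2) / 9) ≤ J R := by
  unfold J
  have hinner : ∀ x ∈ Icc (-(R/2)) (-1 : ℝ), ENNReal.ofReal ((9 * (-x))⁻¹) ≤
      ∫⁻ y in Icc 1 R, ker x y := by
    intro x hx
    have hx1 : 1 ≤ -x := by linarith [hx.2]
    have hsub : Icc (-x) (-2 * x) ⊆ Icc 1 R := by
      intro y hy
      exact ⟨by linarith [hy.1], by linarith [hy.2, hx.1]⟩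
    calc ENNReal.ofReal ((9 * (-x))⁻¹)
        = ∫⁻ y in Icc (-x) (-2 * x), ENNReal.ofReal (1 / (3 * (-x)) ^ 2) := by
          rw [lintegral_const, Measure.restrict_apply MeasurableSet.univ, univ_inter,
            Real.volume_Icc, ← ENNReal.ofReal_mul (by positivity)]
          congr 1
          have : (-x) ≠ 0 := by linarith
          have hx' : x ≠ 0 := by intro h; apply this; rw [h]; simp
          field_simp
          ring
      _ ≤ ∫⁻ y in Icc (-x) (-2 * x), ker x y := by
          apply setLIntegral_mono' measurableSet_Icc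
          intro y hy
          unfold ker
          apply ENNReal.ofReal_le_ofReal
          have h1 : |y - x| = y - x := abs_of_nonneg (by linarith [hy.1])
          rw [h1]
          have h2 : 0 < y - x := by linarith [hy.1]
          apply one_div_le_one_div_of_le (by positivity)
          apply pow_le_pow_left₀ h2.le
          linarith [hy.2]
      _ ≤ ∫⁻ y in Icc 1 R, ker x y := lintegral_mono_set hsub
  calc ENNReal.ofReal (Real.log (R / 2) / 9)
      = ∫⁻ x in Icc (-(R/2)) (-1 : ℝ), ENNReal.ofReal ((9 * (-x))⁻¹) := by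
        have hcont : ContinuousOn (fun x : ℝ => (9 * (-x))⁻¹) (Icc (-(R/2)) (-1 : ℝ)) := by
          apply ContinuousOn.inv₀
          · fun_prop
          · intro x hx
            have : 0 < -x := by linarith [hx.2]
            positivity
        have hint : IntegrableOn (fun x : ℝ => (9 * (-x))⁻¹) (Icc (-(R/2)) (-1 : ℝ)) :=
          hcont.integrableOn_Icc
        rw [← ofReal_integral_eq_lintegral_ofReal hint]
        · congr 1
          rw [integral_Icc_eq_integral_Ioc, ← intervalIntegral.integral_of_le (by linarith)]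
          have e1 : (∫ x in (-(R/2))..(-1 : ℝ), (9 * (-x))⁻¹) =
              ∫ x in (-(R/2))..(-1 : ℝ), (fun u : ℝ => (9 * u)⁻¹) (-x) := rfl
          rw [e1, intervalIntegral.integral_comp_neg (fun u : ℝ => (9 * u)⁻¹)]
          simp only [neg_neg, mul_inv]
          rw [intervalIntegral.integral_const_mul, integral_inv_of_pos (by norm_num) (by linarith)]
          rw [div_one]
          ring
        · refine (ae_restrict_mem measurableSet_Icc).mono ?_
          intro x hx
          have : 0 < -x := by linarith [hx.2]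
          simp only [Pi.zero_apply]
          positivity
    _ ≤ ∫⁻ x in Icc (-(R/2)) (-1 : ℝ), ∫⁻ y in Icc 1 R, ker x y :=
        setLIntegral_mono' measurableSet_Icc hinner
    _ ≤ ∫⁻ x in Icc (-R) 0, ∫⁻ y in Icc 1 R, ker x y := by
        apply lintegral_mono_set
        intro x hx
        exact ⟨by linarith [hx.1], by linarith [hx.2]⟩

/-- The far part of the kernel. -/
lemma far_bound (r : ℝ) (hr : 0 < r) (x : ℝ) :
    (∫⁻ y, indicator {y : ℝ | r ≤ |y - x|} (fun y => ker x y) y) ≤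
      ENNReal.ofReal ((1 + 1 / r ^ 2) * Real.pi) := by
  calc (∫⁻ y, indicator {y : ℝ | r ≤ |y - x|} (fun y => ker x y) y)
      ≤ ∫⁻ y, (fun u : ℝ => ENNReal.ofReal ((1 + 1 / r ^ 2) * (1 + u ^ 2)⁻¹)) (y - x) := by
        apply lintegral_mono
        intro y
        by_cases hy : r ≤ |y - x|
        · rw [indicator_of_mem (show y ∈ {y : ℝ | r ≤ |y - x|} from hy)]
          unfold ker
          apply ENNReal.ofReal_le_ofReal
          rw [← sq_abs (y - x)]
          have h0 : 0 < |y - x| := lt_of_lt_of_le hr hy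
          have h1 : r ^ 2 ≤ |y - x| ^ 2 := pow_le_pow_left₀ hr.le hy 2
          rw [← div_eq_mul_inv, div_le_div_iff₀ (by positivity) (by positivity)]
          have h2 : 1 ≤ |y - x| ^ 2 / r ^ 2 := by
            rw [le_div_iff₀ (by positivity)]; linarith
          have : (1 + 1 / r ^ 2) * |y - x| ^ 2 = |y - x| ^ 2 + |y - x| ^ 2 / r ^ 2 := by ring
          rw [this]
          linarith
        · rw [indicator_of_notMem (show y ∉ {y : ℝ | r ≤ |y - x|} from hy)]
          exact bot_le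
    _ = ∫⁻ u : ℝ, ENNReal.ofReal ((1 + 1 / r ^ 2) * (1 + u ^ 2)⁻¹) :=
        lintegral_sub_right_eq_self
          (fun u : ℝ => ENNReal.ofReal ((1 + 1 / r ^ 2) * (1 + u ^ 2)⁻¹)) x
    _ = ENNReal.ofReal ((1 + 1 / r ^ 2) * Real.pi) := by
        rw [← ofReal_integral_eq_lintegral_ofReal (integrable_inv_one_add_sq.const_mul _)]
        · rw [integral_const_mul, integral_univ_inv_one_add_sq]
        · refine Filter.Eventually.of_forall (fun u => ?_)
          simp only [Pi.zero_apply]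
          positivity

/-- The near part: one point in the transition interval. -/
lemma near_bound (r : ℝ) (hr : 0 < r) :
    (∫⁻ x in Icc (0:ℝ) 1, ∫⁻ y, indicator {y : ℝ | r ≤ |y - x|} (fun y => ker x y) y) ≤
      ENNReal.ofReal ((1 + 1 / r ^ 2) * Real.pi) := by
  calc (∫⁻ x in Icc (0:ℝ) 1, ∫⁻ y, indicator {y : ℝ | r ≤ |y - x|} (fun y => ker x y) y)
      ≤ ∫⁻ x in Icc (0:ℝ) 1, ENNReal.ofReal ((1 + 1 / r ^ 2) * Real.pi) :=
        setLIntegral_mono' measurableSet_Icc (fun x _ => far_bound r hr x)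
    _ = ENNReal.ofReal ((1 + 1 / r ^ 2) * Real.pi) := by
        rw [lintegral_const, Measure.restrict_apply MeasurableSet.univ, univ_inter,
          Real.volume_Icc]
        simp

/-- The upper bound. -/
lemma gapR_upper {N : Type*} [MetricSpace N] (g : ℝ → N) (D p δ r R : ℝ)
    (hp : 0 ≤ p) (hδ : 0 < δ) (hr : 0 < r)
    (hleft : ∀ x ≤ 0, g x = g 0) (hright : ∀ x, 1 ≤ x → g x = g 1)
    (hD : ∀ x y, dist (g x) (g y) ≤ D)
    (huc : ∀ x y, |x - y| < r → dist (g x) (g y) < δ) :
    gapR p δ g (Icc (-R) R) ≤ ENNReal.ofReal (D ^ p) *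
      (2 * J R + 2 * ENNReal.ofReal ((1 + 1 / r ^ 2) * Real.pi)) := by
  -- the four pieces
  set A1 : ℝ × ℝ → ℝ≥0∞ := indicator (Icc (-R) 0 ×ˢ Icc 1 R) (fun z => ker z.1 z.2) with hA1
  set A2 : ℝ × ℝ → ℝ≥0∞ := indicator (Icc 1 R ×ˢ Icc (-R) 0) (fun z => ker z.1 z.2) with hA2
  set A3 : ℝ × ℝ → ℝ≥0∞ := indicator ({z | z.1 ∈ Icc (0:ℝ) 1 ∧ r ≤ |z.2 - z.1|})
    (fun z => ker z.1 z.2) with hA3
  set A4 : ℝ × ℝ → ℝ≥0∞ := indicator ({z | z.2 ∈ Icc (0:ℝ) 1 ∧ r ≤ |z.1 - z.2|})
    (fun z => ker z.1 z.2) with hA4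
  have mS3 : MeasurableSet ({z : ℝ × ℝ | z.1 ∈ Icc (0:ℝ) 1 ∧ r ≤ |z.2 - z.1|}) :=
    (measurable_fst measurableSet_Icc).inter
      (measurableSet_le (measurable_const : Measurable (fun _ : ℝ × ℝ => r))
        (by fun_prop : Measurable (fun z : ℝ × ℝ => |z.2 - z.1|)))
  have mS4 : MeasurableSet ({z : ℝ × ℝ | z.2 ∈ Icc (0:ℝ) 1 ∧ r ≤ |z.1 - z.2|}) :=
    (measurable_snd measurableSet_Icc).inter
      (measurableSet_le (measurable_const : Measurable (fun _ : ℝ × ℝ => r))
        (by fun_prop : Measurable (fun z : ℝ × ℝ => |z.1 - z.2|)))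
  have m1 : Measurable A1 := ker_meas.indicator (measurableSet_Icc.prod measurableSet_Icc)
  have m2 : Measurable A2 := ker_meas.indicator (measurableSet_Icc.prod measurableSet_Icc)
  have m3 : Measurable A3 := ker_meas.indicator mS3
  have m4 : Measurable A4 := ker_meas.indicator mS4
  -- pointwise
  have hpt : ∀ x ∈ Icc (-R) R, ∀ y ∈ Icc (-R) R,
      (if δ ≤ dist (g y) (g x) then
        ENNReal.ofReal ((dist (g y) (g x) - δ) ^ p / |y - x| ^ 2) else 0) ≤
      ENNReal.ofReal (D ^ p) * (A1 (x, y) + A2 (x, y) + A3 (x, y) + A4 (x, y)) := by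
    intro x hx y hy
    split_ifs with hd
    · have hr1 : r ≤ |y - x| := by
        by_contra hcon
        exact absurd (huc y x (not_le.1 hcon)) (not_lt.2 hd)
      have hker : ENNReal.ofReal ((dist (g y) (g x) - δ) ^ p / |y - x| ^ 2) ≤
          ENNReal.ofReal (D ^ p) * ker x y := by
        unfold ker
        rw [← ENNReal.ofReal_mul (Real.rpow_nonneg (le_trans dist_nonneg (hD x y)) _)]
        apply ENNReal.ofReal_le_ofReal
        rw [mul_one_div]
        apply div_le_div_of_nonneg_right _ (by positivity)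
        apply Real.rpow_le_rpow (by linarith) _ hp
        linarith [hD y x]
      refine hker.trans (mul_le_mul_right ?_ _)
      by_cases hx0 : x < 0
      · by_cases hy1 : 1 < y
        · have : A1 (x, y) = ker x y := by
            rw [hA1]; apply indicator_of_mem; exact ⟨⟨hx.1, hx0.le⟩, ⟨hy1.le, hy.2⟩⟩
          rw [this]
          calc ker x y ≤ ker x y + (A2 (x, y) + A3 (x, y) + A4 (x, y)) := le_self_add
            _ = _ := by ring
        · by_cases hy0 : y < 0
          · exfalso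
            rw [hleft x hx0.le, hleft y hy0.le, dist_self] at hd
            linarith
          · have : A4 (x, y) = ker x y := by
              rw [hA4]; apply indicator_of_mem
              refine ⟨⟨not_lt.1 hy0, not_lt.1 hy1⟩, ?_⟩
              rw [abs_sub_comm]; exact hr1
            rw [this]
            exact le_add_self
      · by_cases hx1 : 1 < x
        · by_cases hy0 : y < 0
          · have : A2 (x, y) = ker x y := by
              rw [hA2]; apply indicator_of_mem; exact ⟨⟨hx1.le, hx.2⟩, ⟨hy.1, hy0.le⟩⟩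
            rw [this]
            calc ker x y ≤ ker x y + (A1 (x, y) + A3 (x, y) + A4 (x, y)) := le_self_add
              _ = _ := by ring
          · by_cases hy1 : 1 < y
            · exfalso
              rw [hright x hx1.le, hright y hy1.le, dist_self] at hd
              linarith
            · have : A4 (x, y) = ker x y := by
                rw [hA4]; apply indicator_of_mem
                refine ⟨⟨not_lt.1 hy0, not_lt.1 hy1⟩, ?_⟩
                rw [abs_sub_comm]; exact hr1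
              rw [this]
              exact le_add_self
        · have : A3 (x, y) = ker x y := by
            rw [hA3]; apply indicator_of_mem
            exact ⟨⟨not_lt.1 hx0, not_lt.1 hx1⟩, hr1⟩
          rw [this]
          calc ker x y ≤ ker x y + (A1 (x, y) + A2 (x, y) + A4 (x, y)) := le_self_add
            _ = _ := by ring
    · exact bot_le
  -- integrals of the pieces
  have i1 : (∫⁻ x, ∫⁻ y, A1 (x, y)) = J R := by
    unfold J
    rw [← lintegral_indicator measurableSet_Icc]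
    congr 1
    ext x
    by_cases hx : x ∈ Icc (-R) 0
    · rw [indicator_of_mem hx, ← lintegral_indicator measurableSet_Icc]
      congr 1
      ext y
      by_cases hy : y ∈ Icc 1 R
      · rw [indicator_of_mem hy, hA1,
          indicator_of_mem (show (x, y) ∈ Icc (-R) 0 ×ˢ Icc 1 R from ⟨hx, hy⟩)]
      · rw [indicator_of_notMem hy, hA1,
          indicator_of_notMem (show (x, y) ∉ Icc (-R) 0 ×ˢ Icc 1 R from fun h => hy h.2)]
    · rw [indicator_of_notMem hx]
      have : ∀ y, A1 (x, y) = 0 := by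
        intro y
        rw [hA1, indicator_of_notMem (show (x, y) ∉ Icc (-R) 0 ×ˢ Icc 1 R from fun h => hx h.1)]
      simp [this]
  have i2 : (∫⁻ x, ∫⁻ y, A2 (x, y)) = J R := by
    rw [lintegral_lintegral_swap (f := fun x y => A2 (x, y)) m2.aemeasurable, ← i1]
    congr 1
    ext y
    congr 1
    ext x
    by_cases h : y ∈ Icc (-R) 0 ∧ x ∈ Icc 1 R
    · rw [hA1, hA2, indicator_of_mem (show (x, y) ∈ Icc 1 R ×ˢ Icc (-R) 0 from ⟨h.2, h.1⟩),
        indicator_of_mem (show (y, x) ∈ Icc (-R) 0 ×ˢ Icc 1 R from ⟨h.1, h.2⟩)]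
      exact ker_symm _ _
    · rw [hA1, hA2, indicator_of_notMem
          (show (x, y) ∉ Icc 1 R ×ˢ Icc (-R) 0 from fun hh => h ⟨hh.2, hh.1⟩),
        indicator_of_notMem
          (show (y, x) ∉ Icc (-R) 0 ×ˢ Icc 1 R from fun hh => h ⟨hh.1, hh.2⟩)]
  have i3 : (∫⁻ x, ∫⁻ y, A3 (x, y)) ≤ ENNReal.ofReal ((1 + 1 / r ^ 2) * Real.pi) := by
    refine le_trans (le_of_eq ?_) (near_bound r hr)
    rw [← lintegral_indicator measurableSet_Icc]
    congr 1
    ext x
    by_cases hx : x ∈ Icc (0:ℝ) 1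
    · rw [indicator_of_mem hx]
      congr 1
      ext y
      by_cases hy : r ≤ |y - x|
      · rw [indicator_of_mem (show y ∈ {y : ℝ | r ≤ |y - x|} from hy), hA3,
          indicator_of_mem
            (show (x, y) ∈ {z : ℝ × ℝ | z.1 ∈ Icc (0:ℝ) 1 ∧ r ≤ |z.2 - z.1|} from ⟨hx, hy⟩)]
      · rw [indicator_of_notMem (show y ∉ {y : ℝ | r ≤ |y - x|} from hy), hA3,
          indicator_of_notMem
            (show (x, y) ∉ {z : ℝ × ℝ | z.1 ∈ Icc (0:ℝ) 1 ∧ r ≤ |z.2 - z.1|} from
              fun h => hy h.2)]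
    · rw [indicator_of_notMem hx]
      have : ∀ y, A3 (x, y) = 0 := by
        intro y
        rw [hA3, indicator_of_notMem
          (show (x, y) ∉ {z : ℝ × ℝ | z.1 ∈ Icc (0:ℝ) 1 ∧ r ≤ |z.2 - z.1|} from
            fun h => hx h.1)]
      simp [this]
  have i4 : (∫⁻ x, ∫⁻ y, A4 (x, y)) ≤ ENNReal.ofReal ((1 + 1 / r ^ 2) * Real.pi) := by
    refine le_trans (le_of_eq ?_) i3
    rw [lintegral_lintegral_swap (f := fun x y => A4 (x, y)) m4.aemeasurable]
    congr 1
    ext y
    congr 1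
    ext x
    by_cases h : y ∈ Icc (0:ℝ) 1 ∧ r ≤ |x - y|
    · rw [hA3, hA4, indicator_of_mem
          (show (x, y) ∈ {z : ℝ × ℝ | z.2 ∈ Icc (0:ℝ) 1 ∧ r ≤ |z.1 - z.2|} from h),
        indicator_of_mem
          (show (y, x) ∈ {z : ℝ × ℝ | z.1 ∈ Icc (0:ℝ) 1 ∧ r ≤ |z.2 - z.1|} from h)]
      exact ker_symm _ _
    · rw [hA3, hA4, indicator_of_notMem
          (show (x, y) ∉ {z : ℝ × ℝ | z.2 ∈ Icc (0:ℝ) 1 ∧ r ≤ |z.1 - z.2|} from h),
        indicator_of_notMem
          (show (y, x) ∉ {z : ℝ × ℝ | z.1 ∈ Icc (0:ℝ) 1 ∧ r ≤ |z.2 - z.1|} from h)]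
  -- assembly
  calc gapR p δ g (Icc (-R) R)
      ≤ ∫⁻ x in Icc (-R) R, ∫⁻ y in Icc (-R) R,
          ENNReal.ofReal (D ^ p) * (A1 (x, y) + A2 (x, y) + A3 (x, y) + A4 (x, y)) := by
        unfold gapR
        apply setLIntegral_mono' measurableSet_Icc
        intro x hx
        apply setLIntegral_mono' measurableSet_Icc
        intro y hy
        exact hpt x hx y hy
    _ ≤ ∫⁻ x, ∫⁻ y,
          ENNReal.ofReal (D ^ p) * (A1 (x, y) + A2 (x, y) + A3 (x, y) + A4 (x, y)) := by
        refine le_trans (setLIntegral_le_lintegral _ _) ?_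
        apply lintegral_mono
        intro x
        exact setLIntegral_le_lintegral _ _
    _ = ENNReal.ofReal (D ^ p) * ((∫⁻ x, ∫⁻ y, A1 (x, y)) + (∫⁻ x, ∫⁻ y, A2 (x, y)) +
          (∫⁻ x, ∫⁻ y, A3 (x, y)) + (∫⁻ x, ∫⁻ y, A4 (x, y))) := by
        have hy : ∀ x, (∫⁻ y,
          ENNReal.ofReal (D ^ p) * (A1 (x, y) + A2 (x, y) + A3 (x, y) + A4 (x, y))) =
          ENNReal.ofReal (D ^ p) * ((∫⁻ y, A1 (x, y)) + (∫⁻ y, A2 (x, y)) +
            (∫⁻ y, A3 (x, y)) + (∫⁻ y, A4 (x, y))) := by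
          intro x
          have n4 : Measurable (fun y => A4 (x, y)) := m4.comp measurable_prodMk_left
          have n3 : Measurable (fun y => A3 (x, y)) := m3.comp measurable_prodMk_left
          have n2 : Measurable (fun y => A2 (x, y)) := m2.comp measurable_prodMk_left
          rw [lintegral_const_mul' _ _ ENNReal.ofReal_ne_top,
            lintegral_add_right _ n4, lintegral_add_right _ n3, lintegral_add_right _ n2]
        simp only [hy]
        rw [lintegral_const_mul' _ _ ENNReal.ofReal_ne_top,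
            lintegral_add_right _ (m4.lintegral_prod_right'),
            lintegral_add_right _ (m3.lintegral_prod_right'),
            lintegral_add_right _ (m2.lintegral_prod_right')]
    _ ≤ ENNReal.ofReal (D ^ p) *
      (2 * J R + 2 * ENNReal.ofReal ((1 + 1 / r ^ 2) * Real.pi)) := by
        apply mul_le_mul_right
        rw [i1, i2, two_mul, two_mul, add_assoc]
        exact add_le_add le_rfl (add_le_add i3 i4)

/-- The lower bound. -/
lemma gapR_lower {N : Type*} [MetricSpace N] (g : ℝ → N) (p ε R : ℝ) (hR : 1 ≤ R)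
    (hε : 0 < ε)
    (hleft : ∀ x ≤ 0, g x = g 0) (hright : ∀ x, 1 ≤ x → g x = g 1)
    (hd : dist (g 1) (g 0) = 2 * ε) :
    ENNReal.ofReal (ε ^ p) * J R ≤ gapR p ε g (Icc (-R) R) := by
  unfold J gapR
  rw [← lintegral_const_mul' _ _ ENNReal.ofReal_ne_top]
  calc (∫⁻ x in Icc (-R) 0, ENNReal.ofReal (ε ^ p) * ∫⁻ y in Icc 1 R, ker x y)
      ≤ ∫⁻ x in Icc (-R) 0, ∫⁻ y in Icc (-R) R, if ε ≤ dist (g y) (g x) then
      ENNReal.ofReal ((dist (g y) (g x) - ε) ^ p / |y - x| ^ 2) else 0 := by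
        apply setLIntegral_mono' measurableSet_Icc
        intro x hx
        rw [← lintegral_const_mul' _ _ ENNReal.ofReal_ne_top]
        refine le_trans ?_ (lintegral_mono_set (s := Icc 1 R) ?_)
        · apply setLIntegral_mono' measurableSet_Icc
          intro y hy
          rw [hleft x hx.2, hright y hy.1, hd, if_pos (by linarith)]
          unfold ker
          rw [← ENNReal.ofReal_mul (Real.rpow_nonneg hε.le _)]
          apply ENNReal.ofReal_le_ofReal
          rw [mul_one_div, show 2 * ε - ε = ε by ring]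
        · intro y hy
          exact ⟨by linarith [hy.1], hy.2⟩
    _ ≤ ∫⁻ x in Icc (-R) R, ∫⁻ y in Icc (-R) R, if ε ≤ dist (g y) (g x) then
      ENNReal.ofReal ((dist (g y) (g x) - ε) ^ p / |y - x| ^ 2) else 0 := by
        apply lintegral_mono_set
        intro x hx
        exact ⟨hx.1, by linarith [hx.2]⟩

/-- Core: for maps on an interval no gain is possible. -/
theorem core {N : Type*} [MetricSpace N] (a b : N) (γ : Path a b) (hab : a ≠ b)
    (p : ℝ) (hp : 0 ≤ p) :
    ∃ ε > 0, ∃ c > 0, ∀ δ : ℝ, 0 < δ →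
      ∃ (R : ℝ) (f : EuclideanSpace ℝ (Fin 1) → N), Continuous f ∧
        0 < gapIntegral 1 p ε f (coordE ⁻¹' (Icc (-R) R)) ∧
        gapIntegral 1 p δ f (coordE ⁻¹' (Icc (-R) R)) < ∞ ∧
        ENNReal.ofReal c * gapIntegral 1 p δ f (coordE ⁻¹' (Icc (-R) R)) ≤
          gapIntegral 1 p ε f (coordE ⁻¹' (Icc (-R) R)) := by
  set g : ℝ → N := fun x => γ.extend x with hg
  have hgc : Continuous g := γ.extend.continuous
  have hg0 : g 0 = a := γ.extend_zero
  have hg1 : g 1 = b := γ.extend_one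
  have hleft : ∀ x ≤ 0, g x = g 0 := fun x hx => by rw [hg0]; exact γ.extend_of_le_zero hx
  have hright : ∀ x, 1 ≤ x → g x = g 1 := fun x hx => by
    rw [hg1]; exact γ.extend_of_one_le hx
  have hdist : 0 < dist b a := dist_pos.2 (Ne.symm hab)
  -- diameter
  have hrange : Bornology.IsBounded (range g) := by
    have : range g = range γ := γ.extend_range
    rw [this]
    exact (isCompact_range γ.continuous).isBounded
  obtain ⟨D, hD⟩ := Metric.isBounded_iff.1 hrange
  have hD' : ∀ x y, dist (g x) (g y) ≤ D := fun x y => hD (mem_range_self x) (mem_range_self y)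
  have hDpos : 0 < D := by
    have := hD' 1 0
    rw [hg0, hg1] at this
    linarith
  -- uniform continuity
  have huc : UniformContinuous g := by
    have h1 : UniformContinuous γ :=
      CompactSpace.uniformContinuous_of_continuous γ.continuous
    exact h1.comp (LipschitzWith.projIcc zero_le_one).uniformContinuous
  set ε : ℝ := dist b a / 2 with hε
  have hεpos : 0 < ε := by rw [hε]; linarith
  refine ⟨ε, hεpos, ε ^ p / (4 * D ^ p), by positivity, ?_⟩
  intro δ hδ
  obtain ⟨r, hr, hr'⟩ := Metric.uniformContinuous_iff.1 huc δ hδ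
  have hr'' : ∀ x y, |x - y| < r → dist (g x) (g y) < δ := by
    intro x y hxy
    exact hr' (by rw [Real.dist_eq]; exact hxy)
  set K : ℝ := (1 + 1 / r ^ 2) * Real.pi with hK
  have hKpos : 0 < K := by rw [hK]; positivity
  -- choose R
  set R : ℝ := 2 * Real.exp (9 * K) with hR
  have hR2 : 2 ≤ R := by
    rw [hR]
    have : 1 ≤ Real.exp (9 * K) := Real.one_le_exp (by positivity)
    linarith
  have hJ : ENNReal.ofReal K ≤ J R := by
    refine le_trans (le_of_eq ?_) (J_lower R hR2)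
    congr 1
    rw [hR, mul_div_assoc, mul_comm 2, div_mul_cancel₀ _ (by norm_num : (2:ℝ) ≠ 0), Real.log_exp]
    ring
  have hup := gapR_upper g D p δ r R hp hδ hr hleft hright hD' hr''
  have hlo := gapR_lower g p ε R (by linarith) hεpos hleft hright (by
    rw [hg0, hg1, hε]; ring)
  refine ⟨R, fun x => g (coordE x), ?_, ?_, ?_, ?_⟩
  · apply hgc.comp
    change Continuous (fun x : EuclideanSpace ℝ (Fin 1) => x 0)
    fun_prop
  · rw [gap_eq]
    refine lt_of_lt_of_le ?_ hlo
    apply ENNReal.mul_pos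
    · exact (ENNReal.ofReal_pos.2 (by positivity)).ne'
    · exact (lt_of_lt_of_le (ENNReal.ofReal_pos.2 hKpos) hJ).ne'
  · rw [gap_eq]
    refine lt_of_le_of_lt hup ?_
    apply ENNReal.mul_lt_top ENNReal.ofReal_lt_top
    apply ENNReal.add_lt_top.2
    exact ⟨ENNReal.mul_lt_top (by simp) (J_lt_top R),
      ENNReal.mul_lt_top (by simp) ENNReal.ofReal_lt_top⟩
  · rw [gap_eq, gap_eq]
    calc ENNReal.ofReal (ε ^ p / (4 * D ^ p)) * gapR p δ g (Icc (-R) R)
        ≤ ENNReal.ofReal (ε ^ p / (4 * D ^ p)) * (ENNReal.ofReal (D ^ p) *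
          (2 * J R + 2 * ENNReal.ofReal K)) := mul_le_mul_right hup _
      _ ≤ ENNReal.ofReal (ε ^ p / (4 * D ^ p)) * (ENNReal.ofReal (D ^ p) *
          (2 * J R + 2 * J R)) := by gcongr
      _ = ENNReal.ofReal (ε ^ p) * J R := by
          rw [← add_mul, ← mul_assoc, ← mul_assoc]
          congr 1
          rw [show (2 : ℝ≥0∞) + 2 = ENNReal.ofReal 4 by norm_num,
            ← ENNReal.ofReal_mul (by positivity), ← ENNReal.ofReal_mul (by positivity)]
          congr 1
          have : D ^ p ≠ 0 := (Real.rpow_pos_of_pos hDpos p).ne'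
          field_simp
      _ ≤ gapR p ε g (Icc (-R) R) := hlo

/-- The circle `ℝ / 2πℤ` (with its arc length distance) has two points. -/
lemma circle_nontrivial : Nontrivial (AddCircle (2 * Real.pi)) := by
  refine ⟨⟨(0 : AddCircle (2 * Real.pi)), ((1 : ℝ) : AddCircle (2 * Real.pi)), ?_⟩⟩
  intro h
  have h2 := (AddCircle.coe_eq_zero_iff (2 * Real.pi)).1 h.symm
  obtain ⟨n, hn⟩ := h2
  rw [zsmul_eq_mul] at hn
  have hpi := Real.pi_gt_three
  rcases le_or_gt n 0 with h3 | h3
  · have : (n : ℝ) ≤ 0 := by exact_mod_cast h3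
    nlinarith
  · have : (1 : ℝ) ≤ n := by exact_mod_cast h3
    nlinarith

/-- **Answer to Q1: no, for `m = 1`, for every `p ∈ [0, 1)` and every target.** -/
theorem result :
    -- (1) no constant works, for any nontrivial path connected metric target, even for
    -- continuous maps on compact intervals
    (∀ (N : Type) [MetricSpace N] [PathConnectedSpace N] [Nontrivial N] (p : ℝ),
      0 ≤ p → p < 1 → ∀ C : ℝ,
      ∃ (Ω : Set (EuclideanSpace ℝ (Fin 1))) (f : EuclideanSpace ℝ (Fin 1) → N) (δ ε : ℝ),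
        Convex ℝ Ω ∧ IsCompact Ω ∧ Continuous f ∧ 0 < δ ∧ δ < ε ∧
        gapIntegral 1 p δ f Ω < ∞ ∧
        ENNReal.ofReal (C * (δ / ε) ^ (((1 : ℕ) : ℝ) - p)) * gapIntegral 1 p δ f Ω <
          gapIntegral 1 p ε f Ω) ∧
    -- (2) no decay at all as `δ → 0`: the exponent `m - 1 = 0` is optimal
    (∀ (N : Type) [MetricSpace N] [PathConnectedSpace N] [Nontrivial N] (p : ℝ), 0 ≤ p →
      ∃ ε > 0, ∃ c > 0, ∀ δ : ℝ, 0 < δ →
      ∃ (Ω : Set (EuclideanSpace ℝ (Fin 1))) (f : EuclideanSpace ℝ (Fin 1) → N),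
        Convex ℝ Ω ∧ IsCompact Ω ∧ Continuous f ∧
        0 < gapIntegral 1 p ε f Ω ∧ gapIntegral 1 p δ f Ω < ∞ ∧
        ENNReal.ofReal c * gapIntegral 1 p δ f Ω ≤ gapIntegral 1 p ε f Ω) ∧
    -- (3) in particular for connected manifolds with at least two points
    (∀ (n : ℕ) (N : Type) [MetricSpace N] [MeasurableSpace N] [BorelSpace N]
      [ChartedSpace (EuclideanSpace ℝ (Fin n)) N] [ConnectedSpace N] [Nontrivial N] (p : ℝ),
      0 ≤ p → p < 1 → ¬ ScalingHolds 1 p N) ∧
    -- (4) and for the circle with its arc length distance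
    (∀ p : ℝ, 0 ≤ p → p < 1 → ¬ ScalingHolds 1 p (AddCircle (2 * Real.pi))) := by
  have key : ∀ (N : Type) [MetricSpace N] [PathConnectedSpace N] [Nontrivial N] (p : ℝ), 0 ≤ p →
      ∃ ε > 0, ∃ c > 0, ∀ δ : ℝ, 0 < δ →
      ∃ (Ω : Set (EuclideanSpace ℝ (Fin 1))) (f : EuclideanSpace ℝ (Fin 1) → N),
        Convex ℝ Ω ∧ IsCompact Ω ∧ Continuous f ∧
        0 < gapIntegral 1 p ε f Ω ∧ gapIntegral 1 p δ f Ω < ∞ ∧
        ENNReal.ofReal c * gapIntegral 1 p δ f Ω ≤ gapIntegral 1 p ε f Ω := by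
    intro N _ _ _ p hp
    obtain ⟨a, b, hab⟩ := exists_pair_ne N
    obtain ⟨ε, hε, c, hc, H⟩ := core a b (PathConnectedSpace.somePath a b) hab p hp
    refine ⟨ε, hε, c, hc, fun δ hδ => ?_⟩
    obtain ⟨R, f, h1, h2, h3, h4⟩ := H δ hδ
    exact ⟨coordE ⁻¹' (Icc (-R) R), f, convex_pre R, compact_pre R, h1, h2, h3, h4⟩
  have main : ∀ (N : Type) [MetricSpace N] [PathConnectedSpace N] [Nontrivial N] (p : ℝ),
      0 ≤ p → p < 1 → ∀ C : ℝ,
      ∃ (Ω : Set (EuclideanSpace ℝ (Fin 1))) (f : EuclideanSpace ℝ (Fin 1) → N) (δ ε : ℝ),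
        Convex ℝ Ω ∧ IsCompact Ω ∧ Continuous f ∧ 0 < δ ∧ δ < ε ∧
        gapIntegral 1 p δ f Ω < ∞ ∧
        ENNReal.ofReal (C * (δ / ε) ^ (((1 : ℕ) : ℝ) - p)) * gapIntegral 1 p δ f Ω <
          gapIntegral 1 p ε f Ω := by
    intro N _ _ _ p hp hp1 C
    obtain ⟨ε, hε, c, hc, H⟩ := key N p hp
    -- choose δ
    have htend : Filter.Tendsto (fun δ : ℝ => C * (δ / ε) ^ (((1 : ℕ) : ℝ) - p))
        (𝓝[>] 0) (𝓝 0) := by
      have h1 : Filter.Tendsto (fun δ : ℝ => C * (δ / ε) ^ (((1 : ℕ) : ℝ) - p))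
          (𝓝 0) (𝓝 (C * ((0:ℝ) / ε) ^ (((1 : ℕ) : ℝ) - p))) := by
        apply Filter.Tendsto.const_mul
        apply Filter.Tendsto.rpow_const
        · exact (Filter.tendsto_id.div_const ε)
        · right; push_cast; linarith
      rw [zero_div, Real.zero_rpow (by push_cast; linarith), mul_zero] at h1
      exact h1.mono_left nhdsWithin_le_nhds
    have hev : ∀ᶠ δ in 𝓝[>] (0:ℝ), C * (δ / ε) ^ (((1 : ℕ) : ℝ) - p) < c :=
      htend.eventually_lt_const hc
    have hev2 : ∀ᶠ δ in 𝓝[>] (0:ℝ), δ ∈ Ioo 0 ε := Ioo_mem_nhdsGT hε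
    obtain ⟨δ, hδ1, hδ2⟩ := (hev.and hev2).exists
    obtain ⟨Ω, f, g1, g2, g3, g4, g5, g6⟩ := H δ hδ2.1
    refine ⟨Ω, f, δ, ε, g1, g2, g3, hδ2.1, hδ2.2, g5, ?_⟩
    by_cases h0 : gapIntegral 1 p δ f Ω = 0
    · rw [h0, mul_zero]; exact g4
    · refine lt_of_lt_of_le ?_ g6
      exact (ENNReal.mul_lt_mul_iff_left h0 g5.ne).2
        ((ENNReal.ofReal_lt_ofReal_iff hc).2 hδ1)
  have neg : ∀ (N : Type) [MetricSpace N] [MeasurableSpace N] [BorelSpace N]
      [PathConnectedSpace N] [Nontrivial N] (p : ℝ), 0 ≤ p → p < 1 → ¬ ScalingHolds 1 p N := by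
    intro N _ _ _ _ _ p hp hp1 hG
    obtain ⟨C, hC⟩ := hG
    obtain ⟨Ω, f, δ, ε, h1, _, h3, h4, h5, _, h7⟩ := main N p hp hp1 C
    exact absurd (hC Ω f δ ε h1 h3.measurable h4 h5) (not_le.2 h7)
  refine ⟨main, key, ?_, ?_⟩
  · intro n N _ _ _ _ _ _ p hp hp1
    have h1 : LocallyPathConnectedSpace N :=
      ChartedSpace.locallyPathConnectedSpace (EuclideanSpace ℝ (Fin n)) N
    have h2 : PathConnectedSpace N := pathConnectedSpace_iff_connectedSpace.2 inferInstance
    exact neg N p hp hp1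
  · intro p hp hp1
    have := circle_nontrivial
    exact neg (AddCircle (2 * Real.pi)) p hp hp1

end Pool.Agent.Results.MP_a53ef7_an.GapScaling
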